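import Pool.Agent.Q50.TF.BMain

/-!
# Finite generation of étale motivic cohomology in top weight for regular schemes of any dimension

Let `𝒞` be the smallest class of regular connected schemes, proper over the integers, such that
* all schemes of dimension at most one and all smooth projective varieties over finite fields whose Chow
  motive is finite-dimensional in the sense of Kimura are in `𝒞`;
* a projective bundle is in `𝒞` if and only if its base is;
* the blow-up of `X` in `Y` is in `𝒞` if `X` and `Y` are, and `X` is in `𝒞` if some blow-up of it is;
* if `W → X` is a dominant morphism and `W` is in `𝒞`, then `X` is in `𝒞`.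

For all `X` in `𝒞`, the groups `H^i(X_et, ℤ(m))` are finitely generated for all weights `m ≥ dim X` and
all `i ≤ 2 m`, negative `i` included. So Q1 holds for `X`, and `H^i(X, ℚ(d)) = 0` for `i < 0`.

Examples (flat over the integers, of any dimension): iterated blow-ups of projective spaces over rings of
integers, along members of the class, for instance along products of curves, abelian varieties, Fermat
varieties in the closed fibres, or along smaller schemes of the same kind, and all regular schemes which
are dominated by them.
-/

set_option autoImplicit false

open AlgebraicGeometry CategoryTheory

universe u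

namespace Pool.Agent.Results.MP_c71c7a_nt.BuiltFromFiniteFields

open Pool.Agent.Q50.TF

theorem result (T : MotData.{u}) (hT : T.Facts) (S : Set ArSch)
    (hS : ∀ X ∈ S, ∀ e j : ℕ, AddGroup.FG (T.G X e j)) :
    ∀ X : ArSch, T.Built S X → T.Q1 X ∧ ∀ e j : ℕ, AddGroup.FG (T.G X e j) :=
  fun _ hX => ⟨q1_iff.2 fun j => fg_built hT hS hX 0 j, fun e j => fg_built hT hS hX e j⟩

end Pool.Agent.Results.MP_c71c7a_nt.BuiltFromFiniteFields
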