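import Pool.Agent.H51BS.TopWeight

/-!
# The lower half of the degrees over finite fields and rational function fields
-/

set_option autoImplicit false

namespace Pool.Agent.Results.MP_c71c7a_nt.LowerHalfOverFiniteFields

open Pool.Agent.H51BS

/-- Let `p` be a prime. For every `D` the following are equivalent:

1. `Hⁱ(X_et, ℤ(dim X))` is finitely generated for all `i < dim X` and all `X`, smooth, proper,
   connected and of dimension at most `D` over `𝔽_p`;
2. all these groups are finite;
3. `Hⁱ(𝔽_p(t₁, …, t_{D+1}), ℚ(D+1))` is finite dimensional for all `i < D+1`;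
4. `Hⁱ(𝔽_p(t₁, …, t_{D+1}), ℚ(D+1)) = 0` for all `i < D+1`;
5. `Hⁱ(E, ℚ(D)) = 0` for all `i < D` and all fields `E` of transcendence degree at most `D` over
   `𝔽_p`.

The question for `X` smooth, proper and connected over `𝔽_p` and `0 ≤ i < dim X` has a positive
answer if and only if `Hⁱ(𝔽_p(t₁, …, t_{D+1}), ℚ(D+1))` is finite dimensional for all `D` and all
`i < D+1`. -/
theorem result (M : TopTheory) (p : ℕ) [Fact p.Prime] :
    (∀ D : ℕ, [LowerFG M p D, LowerFinite M p D, TopRationalFinite M p D, TopRationalZero M p D,
      TopFieldsZero M p D].TFAE) ∧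
    (LowerHalf M p ↔ ∀ D : ℕ, TopRationalFinite M p D) :=
  ⟨main_top M p, (lowerHalf_iff M p).trans
    (forall_congr' fun D => (main_top M p D).out 0 2)⟩

end Pool.Agent.Results.MP_c71c7a_nt.LowerHalfOverFiniteFields
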