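import Pool.Agent.Q187.EM.Main

/-!
Finite generation of top-weight etale motivic cohomology in a window below degree `2d`
whose length is any unbounded function of `d` implies finite generation in all degrees
`i ≤ 2m` and all weights `m ≥ d`, and the vanishing in negative degrees.
-/

namespace Pool.Agent.Results.MP_c71c7a_nt.WindowsSuffice

open Pool.Agent.Q187.EM

universe u

/-- Q1 is `WindowFG T (fun d => 2 * d)`. -/
theorem result (T : Proper.{u}) (hT : IsProper T) (g : ℕ → ℕ) (hg : ¬ BddAbove (Set.range g))
    (h : WindowFG T g) :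
    (∀ (X : T.Sch) (m i : ℤ), (T.dim X : ℤ) ≤ m → i ≤ 2 * m → AddGroup.FG (T.H X m i)) ∧
    (∀ (X : T.Sch) (i : ℤ), i < 0 → Subsingleton (T.H X (T.dim X) i)) :=
  ⟨fun X m i hm hi => fg_of_window hT hg h X m i hm hi,
    fun X i hi => vanishing_of_window hT hg h X i hi⟩

end Pool.Agent.Results.MP_c71c7a_nt.WindowsSuffice
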